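import Pool.Agent.H326R2.TabFour

/-!
# First case of `x ^ p + y ^ (2 s) = z ^ (2 s)` for infinitely many pairs of exponents

The equation has no solution in coprime integers `x`, `y`, `z` with `x` even and prime to `s`

* for every Sophie Germain prime `p ≥ 5` and every odd `s` (prime or not, as large as one likes) with
  `s ≢ 0, 1` modulo `p` and `s ≢ 0, 1, -1` modulo `2 p + 1`;
* for all pairs of different primes `5 ≤ p, s < 100`, except `(5, 71)` and `(11, 89)`.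

The proof is an elementary descent with one auxiliary prime; no modularity is used.

Source: `Pool.Agent.H326R2` of the starting library, never handed in.
-/

set_option autoImplicit false

namespace Pool.Agent.Results.MP_509488_nt.FirstCaseDifference

/-- The pairs of exponents: `p ≥ 5` is a Sophie Germain prime and `s` is odd, not `0` or `1` modulo
`p`, not `0`, `1` or `-1` modulo `2 p + 1`; or `p`, `s` are different primes from 5 to 97 with
`(p, s) ≠ (5, 71), (11, 89)`. -/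
def Exponents (p s : ℕ) : Prop :=
  (p.Prime ∧ 5 ≤ p ∧ (2 * p + 1).Prime ∧ Odd s ∧ (s : ZMod p) ≠ 0 ∧ (s : ZMod p) ≠ 1 ∧
    (s : ZMod (2 * p + 1)) ≠ 0 ∧ (s : ZMod (2 * p + 1)) ≠ 1 ∧ (s : ZMod (2 * p + 1)) ≠ -1) ∨
  (p.Prime ∧ s.Prime ∧ 5 ≤ p ∧ 5 ≤ s ∧ p < 100 ∧ s < 100 ∧ p ≠ s ∧
    (p, s) ∉ [((5 : ℕ), (71 : ℕ)), (11, 89)])

theorem exists_aux {p s : ℕ} (h : Exponents p s) : Odd p ∧ 3 ≤ p ∧ Odd s ∧
    ∃ t : ℕ, t.Prime ∧ t ≠ 2 ∧ Pool.Agent.H326R2.Aux 4 p s t := by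
  rcases h with ⟨hp, hp5, ht, hs, h0, h1, k0, k1, k2⟩ | ⟨hp, hs, hp5, hs5, hp1, hs1, hps, hexc⟩
  · exact ⟨hp.odd_of_ne_two (by omega), by omega, hs, 2 * p + 1, ht, by omega,
      Pool.Agent.H326R2.aux_four p s hp hp5 ht hs h0 h1 k0 k1 k2⟩
  · obtain ⟨t, P, h1, h2, h3, h4, h5⟩ := Pool.Agent.H326R2.tab_spec Pool.Agent.H326R2.tabFour_ok
      Pool.Agent.H326R2.tabFour_cov p s hp hs hp5 hs5 hp1 hs1 hps hexc
    exact ⟨hp.odd_of_ne_two (by omega), by omega, hs.odd_of_ne_two (by omega), t, h1, h2,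
      Pool.Agent.H326R2.aux_sound h3 h1 P h4 h5⟩

/-- **Main theorem.** -/
theorem result (p s : ℕ) (h : Exponents p s) (x y z : ℤ) (hx : Even x) (hxy : IsCoprime x y)
    (hxs : IsCoprime x (s : ℤ)) : x ^ p + y ^ (2 * s) ≠ z ^ (2 * s) := by
  obtain ⟨hp, hp3, hs, t, ht, ht2, haux⟩ := exists_aux h
  intro heq
  refine Pool.Agent.H326R2.main_four p s t hp hp3 hs ht ht2 haux x y z hx hxs hxy ?_
  rw [← pow_mul, ← pow_mul, mul_comm s 2, heq]

end Pool.Agent.Results.MP_509488_nt.FirstCaseDifference
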