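import Pool.Agent.TH193.RS.Main2

/-!
# MP_509488_nt: the Fermat-Catalan equation over random sets of primes, third base arbitrary

Fix `M`.  For almost all `k`-tuples of primes `p 1, …, p k`, in every box `p i ≤ N i`, `N i ≥ N`, with
`k, K ≤ (log N) ^ (1/10)`, neither the difference nor the sum of two coprime numbers composed of the `p i`
(not both `1`) is of the form `c z ^ r` with `2 ≤ r ≤ M`, `z` ARBITRARY and `c` composed of the `p i`
and of primes up to `K` (in the case of the sum `c` has to be odd, unless `r` has an odd prime factor).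
With `c = 1`: the equation `x ^ l ± y ^ m = z ^ r` has no solution in coprime `x, y` composed of the
`p i`, `z` arbitrary, `l, m` arbitrary, `2 ≤ r ≤ M`.  The exceptional tuples are at most
`exp (- γ log N / log log N) ∏ π (N i)`.

The proof (project `Pool.Agent.TH193.RS` of the starting library, never handed in) is local: for random
units modulo a prime `ℓ ≡ 1 (mod m)` with `ℓ - 1` free of large primes the classes of sums and
differences of `S`-units are rarely those of `c t ^ m`, and many `ℓ` are used at the same time; a descent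
finishes the proof, as both summands are `m`-th powers.
-/

set_option autoImplicit false

namespace Pool.Agent.Results.MP_509488_nt.RandomPrimeSets

open Finset

/-- All prime divisors of `a` are among the `p i`. -/
def ComposedOf {k : ℕ} (p : Fin k → ℕ) (a : ℕ) : Prop := ∀ q : ℕ, q.Prime → q ∣ a → ∃ i, q = p i

/-- There are coprime positive `a`, `b`, not both `1`, composed of the `p i`, an exponent `r` with
`2 ≤ r ≤ M`, some `z ≥ 1` and some `c ≥ 1` all of whose prime factors are at most `K` or among the `p i`,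
such that `a - b = c z ^ r`, or `a + b = c z ^ r` and, in this second case, `c` is odd or `r` has an odd
prime factor. -/
def Solvable {k : ℕ} (K M : ℕ) (p : Fin k → ℕ) : Prop :=
  ∃ a b c z r : ℕ, 0 < a ∧ 0 < b ∧ a.Coprime b ∧ ComposedOf p a ∧ ComposedOf p b ∧ 1 < a * b ∧
    0 < c ∧ (∀ q : ℕ, q.Prime → q ∣ c → q ≤ K ∨ ∃ i, q = p i) ∧ 0 < z ∧ 2 ≤ r ∧ r ≤ M ∧
    (a = b + c * z ^ r ∨ ((Odd c ∨ ∃ m : ℕ, m.Prime ∧ Odd m ∧ m ∣ r) ∧ a + b = c * z ^ r))

theorem sol_of_solvable {k K M : ℕ} (p : Fin k → ℕ) (h : Solvable K M p) :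
    Pool.Agent.TH193.RS.Sol K M p := by
  obtain ⟨a, b, c, z, r, h1, h2, h3, h4, h5, h6, h7, h8, h9, h10, h11, h12⟩ := h
  -- a prime factor of the exponent
  have key : ∀ m : ℕ, m.Prime → m ∣ r → ∃ C : ℕ, 0 < C ∧ z ^ r = C ^ m ∧ m ≤ M := by
    intro m hm hmr
    obtain ⟨s, rfl⟩ := hmr
    refine ⟨z ^ s, pow_pos h9 _, by rw [← pow_mul, mul_comm], ?_⟩
    have hs : 0 < s := by
      rcases Nat.eq_zero_or_pos s with h | h
      · subst h; omega
      · exact h
    exact (Nat.le_mul_of_pos_right m hs).trans h11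
  rcases h12 with h12 | ⟨h12, h13⟩
  · obtain ⟨m, hm, hmr⟩ := Nat.exists_prime_and_dvd (show r ≠ 1 by omega)
    obtain ⟨C, hC, hz, hM⟩ := key m hm hmr
    exact ⟨a, b, c, C, m, h1, h2, h3, h4, h5, h6, h7, h8, hC, hm, hM, Or.inl (by rw [h12, hz])⟩
  · rcases h12 with hc | ⟨m, hm, hmo, hmr⟩
    · obtain ⟨m, hm, hmr⟩ := Nat.exists_prime_and_dvd (show r ≠ 1 by omega)
      obtain ⟨C, hC, hz, hM⟩ := key m hm hmr
      exact ⟨a, b, c, C, m, h1, h2, h3, h4, h5, h6, h7, h8, hC, hm, hM,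
        Or.inr ⟨Or.inr hc, by rw [h13, hz]⟩⟩
    · obtain ⟨C, hC, hz, hM⟩ := key m hm hmr
      exact ⟨a, b, c, C, m, h1, h2, h3, h4, h5, h6, h7, h8, hC, hm, hM,
        Or.inr ⟨Or.inl hmo, by rw [h13, hz]⟩⟩

/-- **Main theorem.** -/
theorem result (M : ℕ) : ∃ γ : ℝ, 0 < γ ∧ ∃ N₀ : ℕ, ∀ N : ℕ, N₀ ≤ N →
    ∀ k K : ℕ, (k : ℝ) ≤ Real.log N ^ (1 / 10 : ℝ) → (K : ℝ) ≤ Real.log N ^ (1 / 10 : ℝ) →
    ∀ B : Fin k → ℕ, (∀ i, N ≤ B i) →
      ({p : Fin k → ℕ | (∀ i, (p i).Prime ∧ p i ≤ B i) ∧ Solvable K M p}.ncard : ℝ) ≤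
        Real.exp (-γ * (Real.log N / Real.log (Real.log N))) *
          ∏ i, (Nat.primeCounting (B i) : ℝ) := by
  classical
  obtain ⟨c, hc, N₀, h⟩ := Pool.Agent.TH193.RS.main2 M
  refine ⟨c, hc, N₀, fun N hN k K hk hK B hB => ?_⟩
  refine le_trans ?_ (h N hN k K hk hK B hB)
  rw [← Set.ncard_coe_finset]
  apply Nat.cast_le.2
  refine Set.ncard_le_ncard ?_ (Finset.finite_toSet _)
  rintro p ⟨hp, hs⟩
  rw [Finset.mem_coe, Finset.mem_filter, Fintype.mem_piFinset]
  refine ⟨fun i => ?_, by convert sol_of_solvable p hs⟩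
  rw [Pool.Agent.TH193.RS.PR, Finset.mem_filter, Finset.mem_Icc]
  exact ⟨⟨(hp i).1.one_lt.le, (hp i).2⟩, (hp i).1⟩

end Pool.Agent.Results.MP_509488_nt.RandomPrimeSets
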