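import Mathlib
import Pool.Agent.H107.FCZero

/-!
# No solution of the Fermat-Catalan equation in windows: an exceptional set of dimension zero

Let `b > 1` and `θ < 1`. For all `α > 0` outside a set of Hausdorff dimension zero there are `R` and `n₀` such that for
`n ≥ n₀` no solution of `x ^ p + y ^ q = z ^ r` in the sense of the problem with at least one exponent `≥ R` has
`|max (x, y, z) - α b ^ n| ≤ b ^ (θ n)`.
-/

set_option autoImplicit false

namespace Pool.Agent.Results.MP_509488_nt.WindowsOfLargestBases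

/-- `(x, y, z, p, q, r)` is a solution in the sense of the problem: `x`, `y`, `z` are positive
integers with `gcd (x, y, z) = 1`, the exponents `p`, `q`, `r` are primes with
`1/p + 1/q + 1/r ≤ 1`, and `x ^ p + y ^ q = z ^ r`. -/
def Solution (x y z p q r : ℕ) : Prop :=
  0 < x ∧ 0 < y ∧ 0 < z ∧ Nat.gcd x (Nat.gcd y z) = 1 ∧ p.Prime ∧ q.Prime ∧ r.Prime ∧
    (1 : ℚ) / p + 1 / q + 1 / r ≤ 1 ∧ x ^ p + y ^ q = z ^ r

/-- the exponent of convergence of the sequence `v` is at most `τ` -/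
def ExpLe (v : ℕ → ℝ) (τ : ℝ) : Prop := ∀ t : ℝ, τ < t → Summable (fun n : ℕ => (v n) ^ (-t))

/-- The three bases of a solution are pairwise coprime. -/
theorem coprimes {x y z p q r : ℕ} (h : Solution x y z p q r) :
    Nat.Coprime x y ∧ Nat.Coprime x z ∧ Nat.Coprime y z := by
  obtain ⟨-, -, -, hg, hp, hq, hr, -, he⟩ := h
  have key : ∀ l : ℕ, l.Prime → ¬ (l ∣ x ∧ l ∣ y ∧ l ∣ z) := by
    rintro l hl ⟨h1, h2, h3⟩
    have h4 : l ∣ Nat.gcd x (Nat.gcd y z) := Nat.dvd_gcd h1 (Nat.dvd_gcd h2 h3)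
    rw [hg] at h4
    exact hl.one_lt.ne' (Nat.dvd_one.1 h4)
  refine ⟨?_, ?_, ?_⟩
  · refine Nat.Coprime.symm (Nat.coprime_of_dvd fun l hl h1 h2 => key l hl ⟨h2, h1, ?_⟩)
    have h3 : l ∣ z ^ r := he ▸ (Nat.dvd_add (h2.trans (dvd_pow_self x hp.ne_zero))
      (h1.trans (dvd_pow_self y hq.ne_zero)))
    exact hl.dvd_of_dvd_pow h3
  · refine Nat.Coprime.symm (Nat.coprime_of_dvd fun l hl h1 h2 => key l hl ⟨h2, ?_, h1⟩)
    have h3 : l ∣ x ^ p + y ^ q := he ▸ (h1.trans (dvd_pow_self z hr.ne_zero))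
    exact hl.dvd_of_dvd_pow ((Nat.dvd_add_right (h2.trans (dvd_pow_self x hp.ne_zero))).1 h3)
  · refine Nat.Coprime.symm (Nat.coprime_of_dvd fun l hl h1 h2 => key l hl ⟨?_, h2, h1⟩)
    have h3 : l ∣ x ^ p + y ^ q := he ▸ (h1.trans (dvd_pow_self z hr.ne_zero))
    exact hl.dvd_of_dvd_pow ((Nat.dvd_add_left (h2.trans (dvd_pow_self y hq.ne_zero))).1 h3)

/-- **Theorem.** Let `v ≥ 1` be a sequence of exponent of convergence at most `τ ≥ 0` and `θ < 1`. There is a set `E` of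
Hausdorff dimension at most `τ / (1 - θ)` such that for each `α > 0` outside `E` there are `R` and `n₀` such that for all
`n ≥ n₀` and all solutions with at least one exponent at least `R` the largest base is not in the window
`|max (x, y, z) - α v_n| ≤ v_n ^ θ`. The sequences `v_n = (n + 1) ^ a` and `v_n = b ^ n` have exponents of convergence at
most `1 / a` and `0`. -/
theorem result :
    (∀ (v : ℕ → ℝ) (τ θ : ℝ), (∀ n, 1 ≤ v n) → 0 ≤ τ → ExpLe v τ → θ < 1 →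
      ∃ E : Set ℝ, dimH E ≤ ENNReal.ofReal (τ / (1 - θ)) ∧
        ∀ α : ℝ, 0 < α → α ∉ E → ∃ R n₀ : ℕ, ∀ n : ℕ, n₀ ≤ n → ∀ x y z p q r : ℕ, Solution x y z p q r →
          (R ≤ p ∨ R ≤ q ∨ R ≤ r) → (v n) ^ θ < |((max x (max y z) : ℕ) : ℝ) - α * v n|) ∧
    (∀ a : ℝ, 0 < a → ExpLe (fun n : ℕ => ((n : ℝ) + 1) ^ a) (1 / a)) ∧
    (∀ b : ℝ, 1 < b → ExpLe (fun n : ℕ => b ^ n) 0) := by
  refine ⟨fun v τ θ hv hτ hE hθ1 => ?_, fun κ hκ => Pool.Agent.Y854.GM.expLe_pow κ hκ,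
    fun b hb => Pool.Agent.Y854.GM.expLe_geom b hb⟩
  obtain ⟨E, h1, h2⟩ := Pool.Agent.H107.ME.windows_zero Pool.Agent.H107.FC.Sol Pool.Agent.H107.FC.size hv hτ hE hθ1
    Pool.Agent.H107.FC.count
  refine ⟨E, h1, fun α hα hαE => ?_⟩
  obtain ⟨R, n₀, h3⟩ := h2 α hα hαE
  refine ⟨R, n₀, fun n hn x y z p q r hs hR => ?_⟩
  have hc := coprimes hs
  obtain ⟨g1, g2, g3, g4, g5, g6, g7, g8, g9⟩ := hs
  have g10 := h3 n hn ((x ^ p, y ^ q, z ^ r), (x, y, z))
    ⟨p, q, r, g1, g2, g3, hc.1, hc.2.1, hc.2.2, g5.two_le, g6.two_le, g7.two_le, hR, g9, rfl⟩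
  have g11 : Pool.Agent.H107.FC.size ((x ^ p, y ^ q, z ^ r), (x, y, z)) = ((max x (max y z) : ℕ) : ℝ) := by
    show max 1 ((max x (max y z) : ℕ) : ℝ) = ((max x (max y z) : ℕ) : ℝ)
    apply max_eq_right
    have g12 : 1 ≤ max x (max y z) := le_max_of_le_left g1
    exact_mod_cast g12
  rw [g11] at g10
  exact g10

end Pool.Agent.Results.MP_509488_nt.WindowsOfLargestBases
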