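import Pool.Agent.TH863.Cover
import Pool.Agent.Y854.GM.Win

/-!
# The Fermat-Catalan equation with signature `(p, p, r)`: windows without third bases

Let `v ≥ 1` be a sequence with exponent of convergence at most `τ` (for `v_n = n ^ a` this is `1 / a`, for `v_n = b ^ n`
it is `0`) and `θ < 1`. For all `α > 0` outside a set of Hausdorff dimension at most `(5 / 6 + τ) / (1 - θ)` and for all
but finitely many `n`, NO integer `z` with `|z - α v_n| ≤ v_n ^ θ` satisfies `x ^ p + y ^ p = z ^ r` for some coprime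
positive integers `x`, `y` and some primes `p`, `r` with `2 / p + 1 / r ≤ 1`. The bases `x`, `y` and the exponents are
completely free.
-/

set_option autoImplicit false

namespace Pool.Agent.Results.MP_509488_nt.WindowsOfThirdBases

/-- the exponent of convergence of the sequence `v` is at most `τ` -/
def ExpLe (v : ℕ → ℝ) (τ : ℝ) : Prop := ∀ t : ℝ, τ < t → Summable (fun n : ℕ => (v n) ^ (-t))

/-- `z` is the third base of a solution `x ^ p + y ^ p = z ^ r` in coprime positive integers `x`, `y`, with prime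
exponents `p`, `r` such that `1 / p + 1 / p + 1 / r ≤ 1` -/
def ThirdBase (z : ℕ) : Prop :=
  ∃ x y p r : ℕ, 0 < x ∧ 0 < y ∧ p.Prime ∧ r.Prime ∧ Nat.Coprime x y ∧
    (1 : ℚ) / p + 1 / p + 1 / r ≤ 1 ∧ x ^ p + y ^ p = z ^ r

lemma count (ε : ℝ) (hε : 0 < ε) : ∃ C : ℝ, ∀ X : ℝ, 1 ≤ X →
    {z : ℕ | z ∈ {z : ℕ | ThirdBase z} ∧ (z : ℝ) ≤ X}.Finite ∧
      ({z : ℕ | z ∈ {z : ℕ | ThirdBase z} ∧ (z : ℝ) ≤ X}.ncard : ℝ) ≤ C * X ^ (5 / 6 + ε) := by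
  obtain ⟨C, hC⟩ := Pool.Agent.TH863.final
  refine ⟨|C| * ((3 : ℝ) ^ ε * (5 / ε) ^ 5), fun X hX => ?_⟩
  have hX0 : 0 ≤ X := by linarith
  have hset : {z : ℕ | z ∈ {z : ℕ | ThirdBase z} ∧ (z : ℝ) ≤ X} = Pool.Agent.TH863.EE ⌊X⌋₊ := by
    ext z
    constructor
    · rintro ⟨h1, h2⟩
      exact ⟨Nat.le_floor h2, h1⟩
    · rintro ⟨h1, h2⟩
      exact ⟨h2, (Nat.le_floor_iff hX0).1 h1⟩
  have hN1 : 1 ≤ ⌊X⌋₊ := Nat.le_floor (by exact_mod_cast hX)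
  have hNR : (1 : ℝ) ≤ (⌊X⌋₊ : ℝ) := by exact_mod_cast hN1
  have hNX : (⌊X⌋₊ : ℝ) ≤ X := Nat.floor_le hX0
  refine ⟨?_, ?_⟩
  · rw [hset]
    exact (Set.finite_Icc 0 ⌊X⌋₊).subset fun z hz => ⟨Nat.zero_le _, hz.1⟩
  · rw [hset]
    refine (hC ⌊X⌋₊ hN1).trans ?_
    have h1 : (⌊X⌋₊ : ℝ) ^ (5 / 6 : ℝ) ≤ X ^ (5 / 6 : ℝ) := Real.rpow_le_rpow (by linarith) hNX (by norm_num)
    have hlog0 : 0 ≤ Real.log ((⌊X⌋₊ : ℝ) + 2) := Real.log_nonneg (by linarith)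
    have h2 : Real.log ((⌊X⌋₊ : ℝ) + 2) ≤ (3 * X) ^ (ε / 5) / (ε / 5) :=
      (Real.log_le_log (by linarith) (by linarith)).trans (Real.log_le_rpow_div (by linarith) (by positivity))
    have h3 : Real.log ((⌊X⌋₊ : ℝ) + 2) ^ 5 ≤ (3 : ℝ) ^ ε * (5 / ε) ^ 5 * X ^ ε := by
      refine (pow_le_pow_left₀ hlog0 h2 5).trans (le_of_eq ?_)
      rw [div_pow, ← Real.rpow_natCast ((3 * X) ^ (ε / 5)) 5, ← Real.rpow_mul (by positivity)]
      rw [show ε / 5 * ((5 : ℕ) : ℝ) = ε by push_cast; ring, Real.mul_rpow (by norm_num) hX0]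
      field_simp
    calc C * (⌊X⌋₊ : ℝ) ^ (5 / 6 : ℝ) * Real.log ((⌊X⌋₊ : ℝ) + 2) ^ 5
        ≤ |C| * X ^ (5 / 6 : ℝ) * ((3 : ℝ) ^ ε * (5 / ε) ^ 5 * X ^ ε) := by
          apply mul_le_mul _ h3 (by positivity) (by positivity)
          exact mul_le_mul (le_abs_self C) h1 (by positivity) (abs_nonneg C)
      _ = |C| * ((3 : ℝ) ^ ε * (5 / ε) ^ 5) * X ^ (5 / 6 + ε) := by
          rw [Real.rpow_add (by linarith)]
          ring

/-- **Theorem.** Let `v ≥ 1` be a sequence of exponent of convergence at most `τ ≥ 0` and `θ < 1`. There is a set `E` of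
Hausdorff dimension at most `(5 / 6 + τ) / (1 - θ)` such that for each `α > 0` outside `E` and all but finitely many `n`,
NO integer `z` with `|z - α v_n| ≤ v_n ^ θ` satisfies `x ^ p + y ^ p = z ^ r` for some coprime positive integers `x`, `y`
and primes `p`, `r` with `1 / p + 1 / p + 1 / r ≤ 1`. The sequences `v_n = (n + 1) ^ a` and `v_n = b ^ n` have exponent of
convergence at most `1 / a` and `0`. -/
theorem result :
    (∀ (v : ℕ → ℝ) (τ θ : ℝ), (∀ n, 1 ≤ v n) → 0 ≤ τ → ExpLe v τ → θ < 1 →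
      ∃ E : Set ℝ, dimH E ≤ ENNReal.ofReal ((5 / 6 + τ) / (1 - θ)) ∧
        ∀ α : ℝ, 0 < α → α ∉ E → ∃ n₀ : ℕ, ∀ n : ℕ, n₀ ≤ n → ∀ z : ℕ,
          |(z : ℝ) - α * v n| ≤ (v n) ^ θ → ¬ ThirdBase z) ∧
    (∀ a : ℝ, 0 < a → ExpLe (fun n : ℕ => ((n : ℝ) + 1) ^ a) (1 / a)) ∧
    (∀ b : ℝ, 1 < b → ExpLe (fun n : ℕ => b ^ n) 0) := by
  refine ⟨fun v τ θ hv hτ hE hθ1 => ?_, fun κ hκ => Pool.Agent.Y854.GM.expLe_pow κ hκ,
    fun b hb => Pool.Agent.Y854.GM.expLe_geom b hb⟩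
  obtain ⟨E, hE1, hE2⟩ := Pool.Agent.Y854.GM.windows {z : ℕ | ThirdBase z} (fun z : ℕ => (z : ℝ)) hv hτ hE
    (s := 5 / 6) (by norm_num) hθ1 (fun ε hε => count ε hε)
  refine ⟨E, hE1, fun α hα hαE => ?_⟩
  obtain ⟨n₀, hn⟩ := hE2 α hα hαE
  exact ⟨n₀, fun n hn1 z hz hT => absurd (hn n hn1 z hT) (not_lt.2 hz)⟩

end Pool.Agent.Results.MP_509488_nt.WindowsOfThirdBases
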